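import Pool.Agent.Lib.MP_acafa7_al.F.IfaceC
import Pool.Agent.Lib.MP_acafa7_al.MS.H64.HomB

/-! Module IDE: the identities of the proof of 5.1. -/

namespace MSG.F84

open Classical
open MSG.H64.B (ne_nil cat_assoc cat_split isW_cat cat_map mem_cat cat_one_left)

variable {V : Type} {G : SimpleGraph V}

section homotopy

variable {A : Type} [AddCommGroup A] {S : Set V} {ω : V → V → V → A}

theorem tr (hH : HAlgStatement) {l l' l'' : List V} {e e' : A} (h : HomA G S ω l l' e)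
    (h' : HomA G S ω l' l'' e') : HomA G S ω l l'' (e + e') :=
  (hH V A G S ω).1 _ _ _ _ _ h h'

theorem sy (hH : HAlgStatement) {l l' : List V} {e : A} (hl : ∀ x ∈ l, x ∈ S)
    (h : HomA G S ω l l' e) : HomA G S ω l' l (-e) :=
  ((hH V A G S ω).2.2.1 _ _ _ hl h).2

theorem mono (hH : HAlgStatement) {l l' : List V} {e : A} {S' : Set V} (hS : S ⊆ S')
    (h : HomA G S ω l l' e) : HomA G S' ω l l' e :=
  (hH V A G S ω).2.2.2.2.1 _ _ _ _ hS h

theorem isWH (hH : HAlgStatement) {l l' : List V} {e : A} {x y : V}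
    (h : HomA G S ω l l' e) (hw : IsW G x y l) : IsW G x y l' :=
  (hH V A G S ω).2.2.2.2.2.1 _ _ _ _ _ h hw

theorem lf (hH : HAlgStatement) {x y z : V} {l l' m : List V} {e : A} (hm : IsW G x y m)
    (hl : IsW G y z l) (h : HomA G S ω l l' e) : HomA G S ω (cat m l) (cat m l') e :=
  (hH V A G S ω).2.2.2.2.2.2.2.2.2.2.1 _ _ _ _ _ _ _ hm hl h

theorem rt (hH : HAlgStatement) {x y z : V} {l l' m : List V} {e : A} (hl : IsW G x y l)
    (hm : IsW G y z m) (h : HomA G S ω l l' e) : HomA G S ω (cat l m) (cat l' m) e :=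
  (hH V A G S ω).2.2.2.2.2.2.2.2.2.2.2 _ _ _ _ _ _ _ hl hm h

end homotopy

section group

variable {B : Type} [Group B] [MulAction B V]

theorem isW_smul (hA : Aut G B) (b : B) {x y : V} {l : List V} (hl : IsW G x y l) :
    IsW G (b • x) (b • y) (l.map (b • ·)) := by
  refine ⟨?_, ?_, ?_⟩
  · rw [List.isChain_map]
    exact hl.chain.imp (fun p q h => (hA b p q).2 h)
  · rw [List.head?_map, hl.first]; rfl
  · rw [List.getLast?_map, hl.last]; rfl

theorem map_mul (a b : B) (l : List V) :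
    (l.map (a • ·)).map (b • ·) = l.map ((b * a) • ·) := by
  rw [List.map_map]
  congr 1
  funext v
  exact (mul_smul b a v).symm

theorem map_comm (hc : ∀ a b : B, a * b = b * a) (a b : B) (l : List V) :
    (l.map (a • ·)).map (b • ·) = (l.map (b • ·)).map (a • ·) := by
  rw [map_mul, map_mul, hc]

theorem homN_smul (hH : HAlgStatement) (hA : Aut G B) (z : B) {U : Set V} {l l' : List V}
    (h : HomN G U l l') :
    HomN G {v | z⁻¹ • v ∈ U} (l.map (z • ·)) (l'.map (z • ·)) := by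
  have h1 := (hH V ℤ G U (fun _ _ _ => 0)).2.2.2.2.2.2.2.2.1 (MulAction.toPerm z)
    (fun x y => hA z x y) l l' 0 h
  refine mono hH ?_ h1
  rintro v ⟨u, hu, rfl⟩
  show z⁻¹ • (z • u) ∈ U
  rwa [inv_smul_smul]

/-- the walk `γ · zγ ⋯ z^(n-1) γ` -/
abbrev gam (z : B) (x : V) (γ : List V) (n : ℕ) : List V :=
  catN (fun i => γ.map (z ^ i • ·)) x n

theorem gam_succ (z : B) (x : V) (γ : List V) (n : ℕ) :
    gam z x γ (n + 1) = cat (gam z x γ n) (γ.map (z ^ n • ·)) := rfl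

theorem isW_gam (hA : Aut G B) (z : B) {x : V} {γ : List V} (hγ : IsW G x (z • x) γ) :
    ∀ n : ℕ, IsW G x (z ^ n • x) (gam z x γ n) := by
  intro n
  induction n with
  | zero =>
    rw [pow_zero, one_smul]
    exact ⟨List.isChain_singleton x, rfl, rfl⟩
  | succ n ih =>
    rw [gam_succ]
    refine isW_cat ih ?_
    have h := isW_smul hA (z ^ n) hγ
    rwa [smul_smul, ← pow_succ] at h

theorem map_ne_nil {b : B} {l : List V} (h : l ≠ []) : l.map (b • ·) ≠ [] := by
  simpa using h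

theorem gam_shift (hA : Aut G B) (z : B) {x : V} {γ : List V} (hγ : IsW G x (z • x) γ) :
    ∀ n : ℕ, gam z x γ (n + 1) = cat γ ((gam z x γ n).map (z • ·)) := by
  intro n
  induction n with
  | zero =>
    have h1 : γ.map (z ^ 0 • ·) = γ := by simp
    show cat [x] (γ.map (z ^ 0 • ·)) = cat γ ([x].map (z • ·))
    rw [h1, cat_one_left hγ]
    simp [cat]
  | succ n ih =>
    have hne : (gam z x γ n).map (z • ·) ≠ [] := map_ne_nil (ne_nil (isW_gam hA z hγ n))
    calc gam z x γ (n + 1 + 1) = cat (gam z x γ (n + 1)) (γ.map (z ^ (n + 1) • ·)) := rfl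
      _ = cat (cat γ ((gam z x γ n).map (z • ·))) (γ.map (z ^ (n + 1) • ·)) := by rw [ih]
      _ = cat γ (cat ((gam z x γ n).map (z • ·)) (γ.map (z ^ (n + 1) • ·))) :=
        cat_assoc _ _ _ hne
      _ = cat γ ((gam z x γ (n + 1)).map (z • ·)) := by
        rw [gam_succ, cat_map, map_mul, ← pow_succ']

theorem smul_mem_of {S : Set V} (hS : ∀ (b : B), ∀ x ∈ S, b • x ∈ S) {z : B} {v : V}
    (h : z⁻¹ • v ∈ S) : v ∈ S := by
  have := hS z _ h
  rwa [smul_inv_smul] at this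

theorem map_mem {S : Set V} (hS : ∀ (b : B), ∀ x ∈ S, b • x ∈ S) (b : B) {l : List V}
    (hl : ∀ v ∈ l, v ∈ S) : ∀ v ∈ l.map (b • ·), v ∈ S := by
  intro v hv
  rw [List.mem_map] at hv
  obtain ⟨u, hu, rfl⟩ := hv
  exact hS b u (hl u hu)

theorem cat_mem {S : Set V} {l m : List V} (hl : ∀ v ∈ l, v ∈ S) (hm : ∀ v ∈ m, v ∈ S) :
    ∀ v ∈ cat l m, v ∈ S := by
  intro v hv
  rcases mem_cat hv with h | h
  · exact hl v h
  · exact hm v h

theorem gam_mem {S : Set V} (hS : ∀ (b : B), ∀ x ∈ S, b • x ∈ S) (z : B) {x : V} {γ : List V}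
    (hx : x ∈ S) (hγS : ∀ v ∈ γ, v ∈ S) : ∀ n : ℕ, ∀ v ∈ gam z x γ n, v ∈ S := by
  intro n
  induction n with
  | zero =>
    intro v hv
    have : v = x := by simpa [gam, catN] using hv
    rw [this]
    exact hx
  | succ n ih =>
    rw [gam_succ]
    exact cat_mem ih (map_mem hS _ hγS)

variable {Y : Type} [Fintype Y] [MulAction B Y] {S : Set V} {π : V → Y} {c : Y → ℕ}

/-- equivariance inside `S` -/
theorem eqvS (hH : HAlgStatement) (hCM : CM G B S π c) (hT : Tk G B S π c) (b : B)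
    {S' : Set V} (hS' : S' ⊆ S) {l l' : List V} {e : Ch2 Y} (hl : ∀ v ∈ l, v ∈ S')
    (h : HomA G S' (om π c) l l' e) :
    HomA G S (om π c) (l.map (b • ·)) (l'.map (b • ·)) (ac2 b e) := by
  refine mono hH ?_ (hT.eqv b S' hS' l l' e hl h)
  intro v hv
  exact smul_mem_of hCM.inv (hS' hv)

theorem sweep (hH : HAlgStatement) (hA : Aut G B) (hc : ∀ a b : B, a * b = b * a)
    (hCM : CM G B S π c) (hT : Tk G B S π c) {x : V} {z : B} {γ : List V}
    (hγ : IsW G x (z • x) γ) (hγS : ∀ v ∈ γ, v ∈ S) {b : B} {m : List V}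
    (hm : IsW G x (b • x) m) (hmS : ∀ v ∈ m, v ∈ S) {e : Ch2 Y}
    (he : HomA G S (om π c) (cat γ (m.map (z • ·))) (cat m (γ.map (b • ·))) e) :
    ∀ n : ℕ, HomA G S (om π c) (cat (gam z x γ n) (m.map (z ^ n • ·)))
      (cat m ((gam z x γ n).map (b • ·))) (∑ i ∈ Finset.range n, ac2 (z ^ i) e) := by
  intro n
  induction n with
  | zero =>
    have h1 : cat (gam z x γ 0) (m.map (z ^ 0 • ·)) = m := by
      have h1 : m.map (z ^ 0 • ·) = m := by simp
      rw [h1]
      exact cat_one_left hm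
    have h2 : cat m ((gam z x γ 0).map (b • ·)) = m := by
      simp [gam, catN, cat]
    rw [h1, h2, Finset.range_zero, Finset.sum_empty]
    exact HomA.refl _
  | succ n ih =>
    have hg := isW_gam hA z hγ n
    have hgn : γ.map (z ^ n • ·) ≠ [] := map_ne_nil (ne_nil hγ)
    have hzm : m.map (z ^ n • ·) ≠ [] := map_ne_nil (ne_nil hm)
    have hgb : (gam z x γ n).map (b • ·) ≠ [] := map_ne_nil (ne_nil hg)
    have h1 : cat (gam z x γ (n + 1)) (m.map (z ^ (n + 1) • ·)) =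
        cat (gam z x γ n) ((cat γ (m.map (z • ·))).map (z ^ n • ·)) := by
      rw [gam_succ, cat_assoc _ _ _ hgn, cat_map, map_mul, ← pow_succ]
    have h2 : cat (gam z x γ n) ((cat m (γ.map (b • ·))).map (z ^ n • ·)) =
        cat (cat (gam z x γ n) (m.map (z ^ n • ·))) ((γ.map (z ^ n • ·)).map (b • ·)) := by
      rw [cat_map, cat_assoc _ _ _ hzm, map_comm hc b (z ^ n)]
    have h3 : cat (cat m ((gam z x γ n).map (b • ·))) ((γ.map (z ^ n • ·)).map (b • ·)) =
        cat m ((gam z x γ (n + 1)).map (b • ·)) := by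
      rw [gam_succ, cat_map, cat_assoc _ _ _ hgb]
    have hsq : IsW G x (z • b • x) (cat γ (m.map (z • ·))) := isW_cat hγ (isW_smul hA z hm)
    have s1 := eqvS hH hCM hT (z ^ n) (subset_refl S)
      (cat_mem hγS (map_mem hCM.inv z hmS)) he
    have s2 := lf hH hg (isW_smul hA (z ^ n) hsq) s1
    have w1 : IsW G x (b • z ^ n • x) (cat (gam z x γ n) (m.map (z ^ n • ·))) := by
      have := isW_cat hg (isW_smul hA (z ^ n) hm)
      rwa [smul_smul (z ^ n) b x, hc (z ^ n) b, ← smul_smul b (z ^ n) x] at this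
    have w2 := isW_smul hA b (isW_smul hA (z ^ n) hγ)
    have s3 := rt hH w1 w2 ih
    rw [h3] at s3
    rw [h2] at s2
    rw [h1, Finset.sum_range_succ, add_comm (∑ i ∈ Finset.range n, ac2 (z ^ i) e)]
    exact tr hH s2 s3

theorem edw_gam (hA : Aut G B) (hT : Tk G B S π c) {x : V} {z : B}
    {γ : List V} (hγ : IsW G x (z • x) γ) (hγS : ∀ v ∈ γ, v ∈ S) :
    ∀ n : ℕ, edw π c (gam z x γ n) = ∑ i ∈ Finset.range n, ac1 (z ^ i) (edw π c γ) := by
  intro n
  induction n with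
  | zero => simp [gam, catN, edw]
  | succ n ih =>
    rw [gam_succ, hT.cate _ _ _ _ _ (isW_gam hA z hγ n) (isW_smul hA (z ^ n) hγ), ih,
      hT.eqe _ _ hγS, Finset.sum_range_succ]

end group

/-- Module IDE. -/
theorem ide_st (hH : HAlgStatement) (hI : IdcStatement) : IdeStatement := by
  intro V G B _ _ hA hc S Y _ _ π c hCM hT B' z p x γ al U W Wm hp hzp hγ hγS hC hUS hπ hW
    hWm hm hh
  have hinv := hCM.inv
  have hxS : x ∈ S := by
    refine hγS x ?_
    exact List.mem_of_head? hγ.first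
  -- the translated corner
  have hC' : Corner G B' (z • x) (fun b => (al b).map (z • ·)) {v | z⁻¹ • v ∈ U} := by
    refine ⟨?_, ?_, ?_, ?_⟩
    · intro b hb
      have h := isW_smul hA z (hC.wk b hb)
      rwa [smul_smul z b x, hc z b, ← smul_smul b z x] at h
    · intro b hb v hv
      rw [List.mem_map] at hv
      obtain ⟨u, hu, rfl⟩ := hv
      show z⁻¹ • (z • u) ∈ U
      rw [inv_smul_smul]
      exact hC.mem b hb u hu
    · intro b hb v hv
      show z⁻¹ • (b • v) ∈ U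
      rw [smul_smul, hc, ← smul_smul]
      exact hC.inv b hb _ hv
    · intro b hb b' hb'
      have h := homN_smul hH hA z (hC.hom b hb b' hb')
      rwa [cat_map, map_comm hc b z] at h
  have hU'S : {v | z⁻¹ • v ∈ U} ⊆ S := fun v hv => smul_mem_of hinv (hUS hv)
  have hπ' : ∀ v ∈ {v | z⁻¹ • v ∈ U}, ∀ w ∈ {v | z⁻¹ • v ∈ U}, π v = π w := by
    intro v hv w hw
    have h1 : π v = z • π (z⁻¹ • v) := by
      rw [← hCM.eqv z _ (hUS hv), smul_inv_smul]
    have h2 : π w = z • π (z⁻¹ • w) := by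
      rw [← hCM.eqv z _ (hUS hw), smul_inv_smul]
    rw [h1, h2, hπ _ hv _ hw]
  obtain ⟨D, hD1, hD2, hD3⟩ := hI V G B hA S Y π c hCM hT B' x (z • x) γ al
    (fun b => (al b).map (z • ·)) U {v | z⁻¹ • v ∈ U} W hγ hγS hC hC' hUS hU'S hπ hπ' hW
  -- the homotopy of the long walk
  obtain ⟨Dm, hDm⟩ := hT.ex Wm hWm _ _ hh
  have hgW := isW_gam hA z hγ p
  have hgS := gam_mem hinv z hxS hγS p
  have hDmS : HomA G S (om π c) (gam z x γ p) (al (z ^ p)) Dm := mono hH hWm hDm
  have halS : ∀ b ∈ B', ∀ v ∈ al b, v ∈ S := fun b hb v hv => hUS (hC.mem b hb v hv)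
  have hDS : ∀ b ∈ B', HomA G S (om π c) (cat γ ((al b).map (z • ·)))
      (cat (al b) (γ.map (b • ·))) (D b) := fun b hb => mono hH (hW b hb).1 (hD1 b hb)
  obtain ⟨hbd1, hbd2⟩ := hT.bd _ _ _ _ _ hgW hgS hDmS
  -- corner homotopies of weight zero
  have hcor : ∀ b ∈ B', ∀ b' ∈ B',
      HomA G S (om π c) (al (b * b')) (cat (al b) ((al b').map (b • ·))) 0 := by
    intro b hb b' hb'
    obtain ⟨e, he⟩ := hT.ex U hUS _ _ (hC.hom b hb b' hb')
    have h0 := hT.fib U hUS hπ _ _ e (hC.mem _ (B'.mul_mem hb hb')) he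
    rw [h0] at he
    exact mono hH hUS he
  refine ⟨D, Dm, fun b hb => (hD3 b hb).2, hbd2, hD2, fun b hb => (hD3 b hb).1, ?_, ?_, ?_⟩
  · intro b hb
    have s1 := sweep hH hA hc hCM hT hγ hγS (hC.wk b hb) (halS b hb) (hDS b hb) p
    -- the other homotopy
    have wz : IsW G (z ^ p • x) (z ^ p • b • x) ((al b).map (z ^ p • ·)) :=
      isW_smul hA (z ^ p) (hC.wk b hb)
    have t1 := rt hH hgW wz hDmS
    have t2 := hcor (z ^ p) hzp b hb
    have t2' := sy hH (halS _ (B'.mul_mem hzp hb)) t2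
    have t3 := hcor b hb (z ^ p) hzp
    rw [hc b (z ^ p)] at t3
    have t4 := eqvS hH hCM hT b (subset_refl S) hgS hDmS
    have t4' := sy hH (map_mem hinv b hgS) t4
    have wb : IsW G (b • x) (b • z ^ p • x) ((al (z ^ p)).map (b • ·)) :=
      isW_smul hA b (hC.wk _ hzp)
    have t5 := lf hH (hC.wk b hb) wb t4'
    have t6 := tr hH (tr hH (tr hH t1 t2') t3) t5
    have w0 : IsW G x (z ^ p • b • x) (cat (gam z x γ p) ((al b).map (z ^ p • ·))) :=
      isW_cat hgW wz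
    have m0 : ∀ v ∈ cat (gam z x γ p) ((al b).map (z ^ p • ·)), v ∈ S :=
      cat_mem hgS (map_mem hinv _ (halS b hb))
    have h := hT.uniq _ _ _ _ _ _ w0 m0 t6 s1
    rw [← h]
    abel
  · have t1 := rt hH hgW (isW_smul hA (z ^ p) hγ) hDmS
    have t2 := eqvS hH hCM hT z (subset_refl S) hgS hDmS
    have t3 := lf hH hγ (isW_smul hA z hgW) t2
    have t4 := tr hH t3 (hDS _ hzp)
    have e1 : cat (gam z x γ p) (γ.map (z ^ p • ·)) = cat γ ((gam z x γ p).map (z • ·)) := by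
      rw [← gam_succ, gam_shift hA z hγ]
    rw [e1] at t1
    have w0 : IsW G x (z • z ^ p • x) (cat γ ((gam z x γ p).map (z • ·))) :=
      isW_cat hγ (isW_smul hA z hgW)
    exact sub_eq_iff_eq_add'.2
      (hT.uniq _ _ _ _ _ _ w0 (cat_mem hγS (map_mem hinv _ hgS)) t1 t4)
  · have h1 := hT.fibe U hUS hπ (al (z ^ p)) (hC.mem _ hzp)
    rw [h1, sub_zero, edw_gam hA hT hγ hγS p] at hbd1
    exact hbd1

end MSG.F84
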